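import Pool.Agent.N502.FR.Stm

/-!
# Project FR, leaf PRB: the race formula for the probability that `x` comes before `y`
-/

set_option autoImplicit false

namespace Pool.Agent.N953.FR_PRB

open Finset Pool.Agent.N502.FR
open Pool.Agent.H13R3.WB (IsLow prob Hs D mono_iff mono_lt_iff card_count)

private lemma isLow_empty {P : Type} [Fintype P] [PartialOrder P] : IsLow (∅ : Finset P) := by
  intro p hp
  simp at hp

open Classical in
private lemma num_eq {P : Type} [Fintype P] [PartialOrder P] {x y : P} (hne : x ≠ y) :
    Nat.card {f : P ≃ Fin (Fintype.card P) // Monotone f ∧ f x < f y} =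
      NN x y (Fintype.card P) ∅ := by
  have h := card_count (P := P) (fun I : Finset P => IsLow I ∧ (y ∈ I → x ∈ I))
    (n := Fintype.card P) rfl ⟨isLow_empty, fun h => by simp at h⟩
  unfold NN
  rw [← h, Nat.card_eq_fintype_card, Fintype.card_subtype]
  congr 1
  ext f
  simp only [mem_filter, mem_univ, true_and]
  exact mono_lt_iff f hne

open Classical in
private lemma den_eq {P : Type} [Fintype P] [PartialOrder P] :
    Nat.card {f : P ≃ Fin (Fintype.card P) // Monotone f} = EE (Fintype.card P) (∅ : Finset P) := by
  have h := card_count (P := P) (fun I : Finset P => IsLow I)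
    (n := Fintype.card P) rfl isLow_empty
  unfold EE
  rw [← h, Nat.card_eq_fintype_card, Fintype.card_subtype]
  congr 1
  ext f
  simp only [mem_filter, mem_univ, true_and]
  exact mono_iff f

/-- The race formula. -/
theorem main : Pool.Agent.N502.FR.S_PRB := by
  classical
  intro hMNS hHOO hNNK K hK P _ _ hP x y hxy hyx
  have hne : x ≠ y := fun h => hxy (h ▸ le_rfl)
  have h1 := hNNK hMNS hHOO K hK P hP x y hxy hyx (Fintype.card P) ∅ isLow_empty
    (by rw [card_empty, Nat.zero_add]) (by simp) (by simp)
  have h2 := hHOO hMNS P hP (Fintype.card P) ∅ isLow_empty (by rw [card_empty, Nat.zero_add])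
  have h3 : EE (Fintype.card P) (∅ : Finset P) ≠ 0 := by
    intro h0
    rw [h0, Nat.zero_mul] at h2
    exact absurd h2.symm (Nat.factorial_ne_zero _)
  have h4 : un ∅ x y = ux x y := by
    unfold un ux
    congr 1
    ext u
    simp
  have h5 : un ∅ y x = ux y x := by
    unfold un ux
    congr 1
    ext u
    simp
  rw [h4, h5] at h1
  unfold prob
  rw [num_eq hne, den_eq, h1]
  have h6 : ((EE (Fintype.card P) (∅ : Finset P) : ℕ) : ℝ) ≠ 0 := Nat.cast_ne_zero.mpr h3
  exact mul_div_cancel_left₀ _ h6

end Pool.Agent.N953.FR_PRB
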