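import Pool.Agent.N604.MW.Stm2
import Pool.Agent.H373R2.T7.Vau

/-!
# Project PW: exponential sums over primes (helper953)
-/

set_option autoImplicit false

namespace Pool.Agent.N953.PW

open Finset Pool.Agent.N604.MW

lemma norm_e (x : ℝ) : ‖e x‖ = 1 := by
  unfold e
  have : (2 * Real.pi * x * Complex.I : ℂ) = ((2 * Real.pi * x : ℝ) : ℂ) * Complex.I := by
    push_cast; ring
  rw [this, Complex.norm_exp_ofReal_mul_I]

/-- reduction to a dyadic interval -/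
lemma dyad (E : ℕ → ℂ) (hE : ∀ n, ‖E n‖ ≤ 1) (C0 X A L : ℕ) (u : ℝ) (hX : 1 ≤ X) (hC0 : 1 ≤ C0)
    (hAL : A + L ≤ C0 * X) (hu : 1 + Real.log X ≤ u) (hXu : 4 * u ^ 2 ≤ X)
    (hS : (X : ℝ) ≤ u * ‖∑ n ∈ range L, ((ArithmeticFunction.vonMangoldt (A + n) : ℝ) : ℂ) *
      E (A + n)‖) :
    ∃ N N' : ℕ, (X : ℝ) / (8 * u ^ 2) ≤ N ∧ N ≤ N' ∧ N' ≤ 2 * N ∧ N' ≤ C0 * X ∧
      (X : ℝ) / (12 * C0 * u ^ 3) ≤
        ‖∑ n ∈ Ioc N N', ((ArithmeticFunction.vonMangoldt n : ℝ) : ℂ) * E n‖ := by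
  have hX0 : (1 : ℝ) ≤ X := by exact_mod_cast hX
  have hu1 : 1 ≤ u := by
    have := Real.log_nonneg hX0
    linarith
  have hu0 : 0 < u := by linarith
  have hC00 : (1 : ℝ) ≤ C0 := by exact_mod_cast hC0
  set f : ℕ → ℂ := fun n => ((ArithmeticFunction.vonMangoldt n : ℝ) : ℂ) * E n with hf
  set N0 : ℕ := ⌊(X : ℝ) / (4 * u ^ 2)⌋₊ with hN0
  have h1 : (1 : ℝ) ≤ (X : ℝ) / (4 * u ^ 2) := by
    rw [le_div_iff₀ (by positivity)]; linarith
  have hN0a : (N0 : ℝ) ≤ (X : ℝ) / (4 * u ^ 2) := Nat.floor_le (by positivity)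
  have hN0b : (X : ℝ) / (4 * u ^ 2) < N0 + 1 := Nat.lt_floor_add_one _
  have hN01 : 1 ≤ N0 := Nat.le_floor (by exact_mod_cast h1)
  have hN01' : (1 : ℝ) ≤ N0 := by exact_mod_cast hN01
  have hN0c : (X : ℝ) / (8 * u ^ 2) ≤ N0 := by
    have : (X : ℝ) / (8 * u ^ 2) = (X : ℝ) / (4 * u ^ 2) / 2 := by
      rw [div_div]; ring
    rw [this]; linarith
  have hN0X : N0 ≤ X := by
    have : (N0 : ℝ) ≤ X := by
      refine hN0a.trans ?_
      rw [div_le_iff₀ (by positivity)]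
      exact le_mul_of_one_le_right (by positivity) (by nlinarith)
    exact_mod_cast this
  -- the short part
  have hS1 : ∑ n ∈ range L, ((ArithmeticFunction.vonMangoldt (A + n) : ℝ) : ℂ) * E (A + n) =
      ∑ n ∈ Ico A (A + L), f n := by
    rw [Finset.sum_Ico_eq_sum_range, Nat.add_sub_cancel_left]
  rw [hS1] at hS
  have hfn : ∀ n, ‖f n‖ ≤ ArithmeticFunction.vonMangoldt n := by
    intro n
    simp only [hf]
    rw [norm_mul, Complex.norm_real, Real.norm_eq_abs,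
      abs_of_nonneg ArithmeticFunction.vonMangoldt_nonneg]
    exact mul_le_of_le_one_right ArithmeticFunction.vonMangoldt_nonneg (hE n)
  have hshort : ‖∑ n ∈ (Ico A (A + L)).filter (fun n => ¬ N0 < n), f n‖ ≤ X / (4 * u) := by
    calc ‖∑ n ∈ (Ico A (A + L)).filter (fun n => ¬ N0 < n), f n‖
        ≤ ∑ n ∈ (Ico A (A + L)).filter (fun n => ¬ N0 < n), ‖f n‖ := norm_sum_le _ _
      _ ≤ ∑ n ∈ range (N0 + 1), ‖f n‖ := by
          apply sum_le_sum_of_subset_of_nonneg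
          · intro n hn
            rw [mem_filter] at hn
            rw [mem_range]
            omega
          · intro n _ _
            exact norm_nonneg _
      _ = ∑ n ∈ range N0, ‖f (n + 1)‖ + ‖f 0‖ := sum_range_succ' _ _
      _ ≤ ∑ n ∈ range N0, u + 0 := by
          refine add_le_add (sum_le_sum fun n hn => ?_) ?_
          · refine (hfn _).trans (ArithmeticFunction.vonMangoldt_le_log.trans ?_)
            have h3 : (0 : ℝ) < ((n + 1 : ℕ) : ℝ) := by positivity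
            have h4 : ((n + 1 : ℕ) : ℝ) ≤ X := by
              rw [mem_range] at hn
              exact_mod_cast (by omega : n + 1 ≤ X)
            have := Real.log_le_log h3 h4
            linarith
          · simp [hf]
      _ = N0 * u := by rw [sum_const, card_range, nsmul_eq_mul, add_zero]
      _ ≤ X / (4 * u ^ 2) * u := mul_le_mul_of_nonneg_right hN0a hu0.le
      _ = X / (4 * u) := by field_simp
  have hsplit := Finset.sum_filter_add_sum_filter_not (Ico A (A + L)) (fun n => N0 < n) f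
  have hlong : 3 * (X : ℝ) / (4 * u) ≤
      ‖∑ n ∈ (Ico A (A + L)).filter (fun n => N0 < n), f n‖ := by
    have h3 : (X : ℝ) / u ≤ ‖∑ n ∈ Ico A (A + L), f n‖ := by
      rw [div_le_iff₀ hu0]; linarith
    rw [← hsplit] at h3
    have h4 := h3.trans (norm_add_le _ _)
    have h5 : 3 * (X : ℝ) / (4 * u) = X / u - X / (4 * u) := by field_simp; ring
    rw [h5]; linarith
  -- dyadic pieces
  have hdy : ∀ J : ℕ, ∑ n ∈ Ico A (A + L), (if N0 < n ∧ n ≤ N0 * 2 ^ J then f n else 0) =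
      ∑ i ∈ range J, ∑ n ∈ Ioc (max (N0 * 2 ^ i) (A - 1)) (min (2 * (N0 * 2 ^ i)) (A + L - 1)),
        f n := by
    intro J
    induction J with
    | zero =>
      rw [range_zero, sum_empty]
      refine sum_eq_zero fun n _ => ?_
      rw [if_neg]
      intro h
      simp at h
      omega
    | succ J ih =>
      rw [sum_range_succ, ← ih]
      have h3 : ∀ n, (if N0 < n ∧ n ≤ N0 * 2 ^ (J + 1) then f n else 0) =
          (if N0 < n ∧ n ≤ N0 * 2 ^ J then f n else 0) +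
          (if N0 * 2 ^ J < n ∧ n ≤ 2 * (N0 * 2 ^ J) then f n else 0) := by
        intro n
        have h4 : N0 ≤ N0 * 2 ^ J := Nat.le_mul_of_pos_right _ (by positivity)
        have h5 : N0 * 2 ^ (J + 1) = 2 * (N0 * 2 ^ J) := by rw [pow_succ]; ring
        rw [h5]
        by_cases ha : n ≤ N0 * 2 ^ J
        · rw [if_neg (c := N0 * 2 ^ J < n ∧ n ≤ 2 * (N0 * 2 ^ J)) (by omega), add_zero]
          by_cases hb : N0 < n
          · rw [if_pos ⟨hb, by omega⟩, if_pos ⟨hb, ha⟩]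
          · rw [if_neg (by omega), if_neg (by omega)]
        · rw [if_neg (c := N0 < n ∧ n ≤ N0 * 2 ^ J) (by omega), zero_add]
          by_cases hb : n ≤ 2 * (N0 * 2 ^ J)
          · rw [if_pos ⟨by omega, hb⟩, if_pos ⟨by omega, hb⟩]
          · rw [if_neg (by omega), if_neg (by omega)]
      rw [sum_congr rfl fun n _ => h3 n, sum_add_distrib]
      congr 1
      rw [← sum_filter]
      refine sum_congr ?_ fun _ _ => rfl
      ext n
      simp only [mem_filter, mem_Ico, mem_Ioc]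
      omega
  set J : ℕ := ⌈8 * (C0 : ℝ) * u ^ 2⌉₊ with hJ
  have hJa : 8 * (C0 : ℝ) * u ^ 2 ≤ J := Nat.le_ceil _
  have hu2 : 1 ≤ u ^ 2 := one_le_pow₀ hu1
  have hC0u : 1 ≤ (C0 : ℝ) * u ^ 2 := by nlinarith
  have hJb : (J : ℝ) ≤ 9 * (C0 : ℝ) * u ^ 2 := by
    have := Nat.ceil_lt_add_one (show (0 : ℝ) ≤ 8 * (C0 : ℝ) * u ^ 2 by positivity)
    linarith
  have hJ0 : 0 < J := by
    have : (0 : ℝ) < J := by linarith
    exact_mod_cast this
  have hbig : C0 * X ≤ N0 * 2 ^ J := by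
    have h3 : (J : ℝ) ≤ 2 ^ J := by exact_mod_cast Nat.lt_two_pow_self.le
    have h4 : (C0 : ℝ) * X ≤ N0 * 2 ^ J := by
      calc (C0 : ℝ) * X = (X : ℝ) / (8 * u ^ 2) * (8 * (C0 : ℝ) * u ^ 2) := by field_simp
        _ ≤ N0 * 2 ^ J := mul_le_mul hN0c (hJa.trans h3) (by positivity) (by positivity)
    exact_mod_cast h4
  have hall : ∑ n ∈ (Ico A (A + L)).filter (fun n => N0 < n), f n =
      ∑ i ∈ range J, ∑ n ∈ Ioc (max (N0 * 2 ^ i) (A - 1)) (min (2 * (N0 * 2 ^ i)) (A + L - 1)),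
        f n := by
    rw [← hdy J, sum_filter]
    refine sum_congr rfl fun n hn => ?_
    rw [mem_Ico] at hn
    by_cases hb : N0 < n
    · rw [if_pos hb, if_pos ⟨hb, by omega⟩]
    · rw [if_neg hb, if_neg (by tauto)]
  rw [hall] at hlong
  -- the largest piece
  obtain ⟨i, hi, hP⟩ : ∃ i ∈ range J, (X : ℝ) / (12 * C0 * u ^ 3) ≤
      ‖∑ n ∈ Ioc (max (N0 * 2 ^ i) (A - 1)) (min (2 * (N0 * 2 ^ i)) (A + L - 1)), f n‖ := by
    by_contra hcon
    push Not at hcon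
    have h3 := sum_lt_sum_of_nonempty (nonempty_range_iff.2 hJ0.ne') hcon
    rw [sum_const, card_range, nsmul_eq_mul] at h3
    have h4 := norm_sum_le (range J) fun i =>
      ∑ n ∈ Ioc (max (N0 * 2 ^ i) (A - 1)) (min (2 * (N0 * 2 ^ i)) (A + L - 1)), f n
    have h5 : (J : ℝ) * ((X : ℝ) / (12 * C0 * u ^ 3)) ≤ 3 * (X : ℝ) / (4 * u) := by
      calc (J : ℝ) * ((X : ℝ) / (12 * C0 * u ^ 3)) ≤
          9 * (C0 : ℝ) * u ^ 2 * ((X : ℝ) / (12 * C0 * u ^ 3)) :=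
            mul_le_mul_of_nonneg_right hJb (by positivity)
        _ = 3 * (X : ℝ) / (4 * u) := by field_simp; ring
    linarith
  have hpos : (0 : ℝ) < (X : ℝ) / (12 * C0 * u ^ 3) := by positivity
  have hne : max (N0 * 2 ^ i) (A - 1) < min (2 * (N0 * 2 ^ i)) (A + L - 1) := by
    by_contra hcon
    rw [Ioc_eq_empty hcon, sum_empty, norm_zero] at hP
    linarith
  refine ⟨max (N0 * 2 ^ i) (A - 1), min (2 * (N0 * 2 ^ i)) (A + L - 1), ?_, hne.le, ?_, ?_, hP⟩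
  · refine hN0c.trans ?_
    have h4 : N0 ≤ N0 * 2 ^ i := Nat.le_mul_of_pos_right _ (by positivity)
    exact_mod_cast h4.trans (le_max_left _ _)
  · have := le_max_left (N0 * 2 ^ i) (A - 1)
    have := min_le_left (2 * (N0 * 2 ^ i)) (A + L - 1)
    omega
  · have := min_le_right (2 * (N0 * 2 ^ i)) (A + L - 1)
    omega

lemma le_T {u c C : ℝ} {a m : ℕ} (hu : 1 ≤ u) (hc : 0 ≤ c) (hC : c ≤ C) (ha : a ≤ m) :
    c * u ^ a ≤ C * u ^ m :=
  mul_le_mul hC (pow_le_pow_right₀ hu ha) (by positivity) (hc.trans hC)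

theorem pweyl (h1 : S_WEYL) (h2 : S_TYPE2) : S_PWEYL := by
  intro k C0' hk
  obtain ⟨C0, hC0def⟩ : ∃ C0 : ℕ, C0 = C0' + 1 := ⟨_, rfl⟩
  have hC01 : 1 ≤ C0 := by omega
  obtain ⟨C1, m1, H1⟩ := h1 k (2 * C0 + 1) hk
  obtain ⟨C2, m2, H2⟩ := h2 k C0 hk
  obtain ⟨D, hD⟩ : ∃ D : ℕ, D = 600000 * C0 ^ 6 := ⟨_, rfl⟩
  obtain ⟨G, hG⟩ : ∃ G : ℕ, G = (2 * C2 + 2) * D ^ m2 := ⟨_, rfl⟩
  obtain ⟨CU, hCU⟩ : ∃ CU : ℕ, CU = 361 * C0 ^ 2 * G ^ 2 := ⟨_, rfl⟩
  obtain ⟨CB, hCB⟩ : ∃ CB : ℕ, CB = C1 * CU ^ m1 * (2 * G ^ 2) ^ k := ⟨_, rfl⟩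
  obtain ⟨mB, hmB⟩ : ∃ mB : ℕ, mB = (4 + 16 * m2) * m1 + 16 * m2 * k := ⟨_, rfl⟩
  refine ⟨(8 * G ^ 2) ^ k + C2 * D ^ m2 + CB, k * (2 + 16 * m2) + 8 * m2 + mB, ?_⟩
  intro α X A L u hX hAL hu hS
  have hX0 : (1 : ℝ) ≤ X := by exact_mod_cast hX
  have hu1 : 1 ≤ u := by
    have := Real.log_nonneg hX0
    linarith
  have hu0 : 0 < u := by linarith
  have hC00 : (1 : ℝ) ≤ C0 := by exact_mod_cast hC01
  have hD1 : 1 ≤ D := by rw [hD]; exact Nat.one_le_iff_ne_zero.2 (by positivity)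
  have hD1' : (1 : ℝ) ≤ D := by exact_mod_cast hD1
  have hG1 : 1 ≤ G := by
    rw [hG]
    exact Nat.one_le_iff_ne_zero.2 (by positivity)
  have hG1' : (1 : ℝ) ≤ G := by exact_mod_cast hG1
  obtain ⟨T, hT⟩ : ∃ T : ℝ, T = (((8 * G ^ 2) ^ k + C2 * D ^ m2 + CB : ℕ) : ℝ) *
    u ^ (k * (2 + 16 * m2) + 8 * m2 + mB) := ⟨_, rfl⟩
  rw [← hT]
  have hT1 : ((8 * (G : ℝ) ^ 2) ^ k) * u ^ (k * (2 + 16 * m2)) ≤ T := by
    rw [hT]
    refine le_T hu1 (by positivity) ?_ (by omega)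
    push_cast
    have : (0 : ℝ) ≤ C2 * (D : ℝ) ^ m2 + CB := by positivity
    linarith
  have hT2 : ((C2 : ℝ) * D ^ m2) * u ^ (8 * m2) ≤ T := by
    rw [hT]
    refine le_T hu1 (by positivity) ?_ (by omega)
    push_cast
    have : (0 : ℝ) ≤ (8 * (G : ℝ) ^ 2) ^ k + CB := by positivity
    linarith
  have hT3 : (CB : ℝ) * u ^ mB ≤ T := by
    rw [hT]
    refine le_T hu1 (by positivity) ?_ (by omega)
    push_cast
    have : (0 : ℝ) ≤ (8 * (G : ℝ) ^ 2) ^ k + C2 * (D : ℝ) ^ m2 := by positivity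
    linarith
  by_cases hbig : 8 * (G : ℝ) ^ 2 * u ^ (2 + 16 * m2) ≤ X
  swap
  · -- the trivial case
    push Not at hbig
    have hXk : (X : ℝ) ^ k ≤ T := by
      refine (pow_le_pow_left₀ (by positivity) hbig.le k).trans (le_trans (le_of_eq ?_) hT1)
      rw [mul_pow, ← pow_mul, mul_comm (2 + 16 * m2) k]
    have hXk1 : (X : ℝ) ^ (k - 1) ≤ T := (pow_le_pow_right₀ hX0 (by omega)).trans hXk
    have hT0 : 1 ≤ T := (one_le_pow₀ hX0).trans hXk
    refine ⟨1, le_rfl, by simpa using hT0, ⟨round (α k), ?_⟩, ⟨round (α (k - 1)), ?_⟩⟩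
    · rw [Nat.cast_one, one_mul]
      refine (abs_sub_round _).trans ?_
      rw [le_div_iff₀ (by positivity)]
      linarith
    · rw [Nat.cast_one, one_mul]
      refine (abs_sub_round _).trans ?_
      rw [le_div_iff₀ (by positivity)]
      linarith
  -- the main case
  have hXpos : (0 : ℝ) < X := by linarith
  set E : ℕ → ℂ := fun n => e (∑ j ∈ range (k + 1), α j * ((n : ℕ) : ℝ) ^ j) with hE
  have hup : ∀ a : ℕ, 1 ≤ u ^ a := fun a => one_le_pow₀ hu1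
  have hG2 : 1 ≤ (G : ℝ) ^ 2 := one_le_pow₀ hG1'
  have hXu : 4 * u ^ 2 ≤ X := by
    refine le_trans ?_ hbig
    rw [pow_add]
    have h3 : 1 ≤ (G : ℝ) ^ 2 * u ^ (16 * m2) := one_le_mul_of_one_le_of_one_le hG2 (hup _)
    have h4 : 0 < u ^ 2 := by positivity
    have h5 : 1 * u ^ 2 ≤ (G : ℝ) ^ 2 * u ^ (16 * m2) * u ^ 2 :=
      mul_le_mul_of_nonneg_right h3 h4.le
    have e8 : 8 * (G : ℝ) ^ 2 * (u ^ 2 * u ^ (16 * m2)) =
      8 * ((G : ℝ) ^ 2 * u ^ (16 * m2) * u ^ 2) := by ring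
    rw [e8]
    linarith
  obtain ⟨N, N', hN1, hNN', hN'2, hN'X, hsum⟩ := dyad E (fun n => (norm_e _).le) C0 X A L u hX
    hC01 (hAL.trans (Nat.mul_le_mul_right _ (by omega))) hu hXu hS
  have hN0 : (0 : ℝ) < N := lt_of_lt_of_le (by positivity) hN1
  have hN01 : 1 ≤ N := by exact_mod_cast hN0
  obtain ⟨Lg, hLg⟩ : ∃ Lg : ℝ, Lg = 1 + Real.log (4 * N) := ⟨_, rfl⟩
  have hN01' : (1 : ℝ) ≤ N := by exact_mod_cast hN01
  have hLg0 : 0 ≤ Lg := by
    have := Real.log_nonneg (show (1 : ℝ) ≤ 4 * N by linarith)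
    linarith
  have hLgu : Lg ≤ 5 * C0 * u := by
    have h3 : (N : ℝ) ≤ C0 * X := by exact_mod_cast hNN'.trans hN'X
    have h4 : Real.log (4 * N) ≤ Real.log (4 * C0 * X) :=
      Real.log_le_log (by positivity) (by linarith)
    rw [Real.log_mul (show 4 * (C0 : ℝ) ≠ 0 by positivity)
      (show (X : ℝ) ≠ 0 by positivity)] at h4
    have h5 := Real.log_le_sub_one_of_pos (show (0 : ℝ) < 4 * C0 by positivity)
    have h6 : (C0 : ℝ) ≤ C0 * u := le_mul_of_one_le_right (by positivity) hu1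
    have h7 : u ≤ C0 * u := le_mul_of_one_le_left hu0.le hC00
    have e8 : 5 * (C0 : ℝ) * u = 4 * (C0 * u) + C0 * u := by ring
    rw [hLg, e8]
    linarith
  obtain ⟨u2, hu2⟩ : ∃ u2 : ℝ, u2 = D * u ^ 8 := ⟨_, rfl⟩
  have hu21 : 1 ≤ u2 := hu2 ▸ one_le_mul_of_one_le_of_one_le hD1' (hup 8)
  have hu20 : 0 < u2 := by linarith
  obtain ⟨R, hR⟩ : ∃ R : ℝ, R = X / u2 := ⟨_, rfl⟩
  have hR0 : 0 ≤ R := by rw [hR]; positivity
  obtain ⟨U, hU⟩ : ∃ U : ℕ, U = ⌈2 * (C2 : ℝ) * u2 ^ m2⌉₊ + 1 := ⟨_, rfl⟩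
  have hU1 : 1 ≤ U := by omega
  have hUa : 2 * (C2 : ℝ) * u2 ^ m2 ≤ U - 1 := by
    rw [hU]; push_cast
    have := Nat.le_ceil (2 * (C2 : ℝ) * u2 ^ m2)
    linarith
  have hUb : (U : ℝ) ≤ G * u ^ (8 * m2) := by
    have h3 := Nat.ceil_lt_add_one (show (0 : ℝ) ≤ 2 * (C2 : ℝ) * u2 ^ m2 by positivity)
    have h4 : (U : ℝ) ≤ (2 * C2 + 2) * u2 ^ m2 := by
      rw [hU]; push_cast
      have h5 : 1 ≤ u2 ^ m2 := one_le_pow₀ hu21
      have e8 : (2 * (C2 : ℝ) + 2) * u2 ^ m2 = 2 * C2 * u2 ^ m2 + 2 * u2 ^ m2 := by ring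
      rw [e8]
      linarith
    refine h4.trans (le_of_eq ?_)
    rw [hG, hu2, mul_pow, ← pow_mul]
    push_cast
    ring
  have hU0 : (0 : ℝ) < U := by exact_mod_cast hU1
  have hUsq : (U : ℝ) ^ 2 ≤ G ^ 2 * u ^ (16 * m2) := by
    refine (pow_le_pow_left₀ hU0.le hUb 2).trans (le_of_eq ?_)
    rw [mul_pow, ← pow_mul]
    congr 2
    ring
  have hUN : U * U ≤ N := by
    have h3 : (U : ℝ) ^ 2 ≤ N := by
      refine hUsq.trans (le_trans ?_ hN1)
      rw [le_div_iff₀ (by positivity)]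
      refine le_trans (le_of_eq ?_) hbig
      rw [pow_add]; ring
    have h4 : ((U * U : ℕ) : ℝ) ≤ N := by push_cast; rw [← sq]; exact h3
    exact_mod_cast h4
  obtain ⟨u3, hu3⟩ : ∃ u3 : ℝ, u3 = 361 * C0 ^ 2 * u ^ 4 * U ^ 2 := ⟨_, rfl⟩
  have hU1' : (1 : ℝ) ≤ U := by exact_mod_cast hU1
  have hu31 : 1 ≤ u3 := by
    have h3 : 1 ≤ (C0 : ℝ) ^ 2 := one_le_pow₀ hC00
    have h4 : 1 ≤ (U : ℝ) ^ 2 := one_le_pow₀ hU1'
    have h5 : 1 ≤ (C0 : ℝ) ^ 2 * u ^ 4 := one_le_mul_of_one_le_of_one_le h3 (hup 4)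
    have h6 := one_le_mul_of_one_le_of_one_le h5 h4
    have e8 : 361 * (C0 : ℝ) ^ 2 * u ^ 4 * U ^ 2 = 361 * (C0 ^ 2 * u ^ 4 * U ^ 2) := by ring
    rw [hu3, e8]
    linarith
  have hu30 : 0 < u3 := by linarith
  by_cases hII : ∀ (a b : ℕ → ℂ) (A₂ B₂ : ℝ), 0 ≤ A₂ → 0 ≤ B₂ → ∀ M L : ℕ, 1 ≤ M → 1 ≤ L →
      U < 2 * M → U < 2 * L → M * L ≤ N' →
      ∑ m ∈ Ioc M (2 * M), ‖a m‖ ^ 2 ≤ A₂ * M → ∑ l ∈ Ioc L (2 * L), ‖b l‖ ^ 2 ≤ B₂ * L →
      ‖∑ m ∈ Ioc M (2 * M), ∑ l ∈ Ioc L (2 * L), a m * b l *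
        (if N < m * l ∧ m * l ≤ N' then E (m * l) else 0)‖ ^ 2 ≤ A₂ * B₂ * R ^ 2
  swap
  · -- a large bilinear sum
    push Not at hII
    obtain ⟨a, b, A₂, B₂, hA₂, hB₂, M, L', hM, hL', hUM, hUL, hML, hs1, hs2, hlt⟩ := hII
    rw [hR] at hlt
    have hhalf : ∀ M : ℕ, U < 2 * M → (C2 : ℝ) * u2 ^ m2 ≤ M := by
      intro M hM
      have h3 : (U : ℝ) < 2 * M := by exact_mod_cast hM
      linarith
    obtain ⟨q, hq1, hq2, ⟨a', ha'⟩, ⟨b', hb'⟩⟩ := H2 α X N N' M L' u2 a b A₂ B₂ hX hu21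
      (hhalf M hUM) (hhalf L' hUL) (hML.trans hN'X) hA₂ hB₂ hs1 hs2 hlt
    have h3 : (C2 : ℝ) * u2 ^ m2 ≤ T := by
      refine le_trans (le_of_eq ?_) hT2
      rw [hu2, mul_pow, ← pow_mul]; ring
    refine ⟨q, hq1, hq2.trans h3, ⟨a', ha'.trans ?_⟩, ⟨b', hb'.trans ?_⟩⟩
    · exact div_le_div_of_nonneg_right h3 (by positivity)
    · exact div_le_div_of_nonneg_right h3 (by positivity)
  -- a large linear sum
  obtain ⟨m, hm, b, hb, hlarge⟩ : ∃ m ∈ Icc 1 (U * U), ∃ b, b ≤ N' / m ∧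
      (X : ℝ) / u3 < ‖∑ l ∈ Ioc (N / m) b, E (m * l)‖ := by
    by_contra hcon
    push Not at hcon
    have hv := Pool.Agent.H373R2.T7.vaughan_gen E N N' U hN01 hNN' hN'2 hU1 hUN
      (fun _ => (X : ℝ) / u3) R hR0 (fun _ => by positivity) hcon hII
    rw [sum_const, Nat.card_Icc, nsmul_eq_mul, Nat.add_sub_cancel, ← hLg] at hv
    have h3 : 8 * Lg ^ 5 * R ≤ (X : ℝ) / (24 * C0 * u ^ 3) := by
      have h4 : Lg ^ 5 ≤ (5 * C0 * u) ^ 5 := pow_le_pow_left₀ hLg0 hLgu 5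
      calc 8 * Lg ^ 5 * R ≤ 8 * (5 * C0 * u) ^ 5 * R := by gcongr
        _ = (X : ℝ) / (24 * C0 * u ^ 3) := by
            rw [hR, hu2, hD]
            push_cast
            field_simp
            ring
    have h5 : 3 * Lg * (((U * U : ℕ) : ℝ) * ((X : ℝ) / u3)) ≤ 15 * (X : ℝ) / (361 * C0 * u ^ 3) := by
      calc 3 * Lg * (((U * U : ℕ) : ℝ) * ((X : ℝ) / u3)) ≤
          3 * (5 * C0 * u) * (((U * U : ℕ) : ℝ) * ((X : ℝ) / u3)) := by gcongr
        _ = 15 * (X : ℝ) / (361 * C0 * u ^ 3) := by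
            rw [hu3]
            push_cast
            field_simp
            ring
    have h6 : (X : ℝ) / (24 * C0 * u ^ 3) + 15 * (X : ℝ) / (361 * C0 * u ^ 3) <
        (X : ℝ) / (12 * C0 * u ^ 3) := by
      have h7 : (0 : ℝ) < X / (C0 * u ^ 3) := by positivity
      have e1 : (X : ℝ) / (24 * C0 * u ^ 3) = X / (C0 * u ^ 3) / 24 := by field_simp
      have e2 : 15 * (X : ℝ) / (361 * C0 * u ^ 3) = 15 * (X / (C0 * u ^ 3)) / 361 := by field_simp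
      have e3 : (X : ℝ) / (12 * C0 * u ^ 3) = X / (C0 * u ^ 3) / 12 := by field_simp
      rw [e1, e2, e3]
      linarith
    linarith
  rw [mem_Icc] at hm
  have hm0 : 0 < m := hm.1
  have hm0' : (0 : ℝ) < m := by exact_mod_cast hm0
  have hm1' : (1 : ℝ) ≤ m := by exact_mod_cast hm.1
  have hNb : N / m < b := by
    by_contra hcon
    rw [Ioc_eq_empty hcon, sum_empty, norm_zero] at hlarge
    have : (0 : ℝ) ≤ X / u3 := by positivity
    linarith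
  have hmX : m ≤ X := by
    have h3 : ((U * U : ℕ) : ℝ) ≤ X := by
      push_cast
      rw [← sq]
      refine hUsq.trans (le_trans ?_ hbig)
      rw [pow_add]
      have h4 : 1 ≤ 8 * u ^ 2 := by nlinarith [hup 2]
      calc (G : ℝ) ^ 2 * u ^ (16 * m2) = 1 * (G ^ 2 * u ^ (16 * m2)) := by ring
        _ ≤ 8 * u ^ 2 * (G ^ 2 * u ^ (16 * m2)) := mul_le_mul_of_nonneg_right h4 (by positivity)
        _ = _ := by ring
    have h4 : U * U ≤ X := by exact_mod_cast h3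
    exact hm.2.trans h4
  obtain ⟨X', hX'⟩ : ∃ X' : ℕ, X' = X / m := ⟨_, rfl⟩
  have hX'1 : 1 ≤ X' := hX' ▸ Nat.div_pos hmX hm0
  have hX'0 : (0 : ℝ) < X' := by exact_mod_cast hX'1
  have hXX' : X ≤ 2 * m * X' := by
    have h3 : X < m * (X' + 1) := by
      rw [hX']
      have := Nat.lt_mul_div_succ X hm0
      exact this
    have h4 : m * (X' + 1) ≤ m * (2 * X') := Nat.mul_le_mul_left _ (by omega)
    have h5 : m * (2 * X') = 2 * m * X' := by ring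
    omega
  have hXX'r : (X : ℝ) ≤ 2 * m * X' := by exact_mod_cast hXX'
  have hbX : b + 1 ≤ (2 * C0 + 1) * X' := by
    have h3 : b ≤ C0 * X / m := hb.trans (Nat.div_le_div_right hN'X)
    have h4 : C0 * X / m ≤ 2 * C0 * X' := by
      have h6 : C0 * X / m < C0 * (X' + 1) := by
        rw [Nat.div_lt_iff_lt_mul hm0]
        have h7 : X < m * (X' + 1) := by
          rw [hX']
          exact Nat.lt_mul_div_succ X hm0
        calc C0 * X < C0 * (m * (X' + 1)) := Nat.mul_lt_mul_of_pos_left h7 (by omega)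
          _ = C0 * (X' + 1) * m := by ring
      have h8 : C0 * (X' + 1) ≤ C0 * (2 * X') := Nat.mul_le_mul_left _ (by omega)
      have h9 : C0 * (2 * X') = 2 * C0 * X' := by ring
      omega
    have h5 : (2 * C0 + 1) * X' = 2 * C0 * X' + X' := by ring
    omega
  have hsumeq : ∑ l ∈ Ioc (N / m) b, E (m * l) = ∑ n ∈ range (b - N / m),
      e (∑ j ∈ range (k + 1), (α j * (m : ℝ) ^ j) * ((N / m + 1 + n : ℕ) : ℝ) ^ j) := by
    have h3 : Ioc (N / m) b = Ico (N / m + 1) (b + 1) := by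
      ext z
      simp only [mem_Ioc, mem_Ico]
      omega
    rw [h3, Finset.sum_Ico_eq_sum_range]
    have h4 : b + 1 - (N / m + 1) = b - N / m := by omega
    rw [h4]
    refine sum_congr rfl fun n _ => ?_
    simp only [hE]
    congr 1
    refine sum_congr rfl fun j _ => ?_
    rw [Nat.cast_mul, mul_pow]
    ring
  obtain ⟨q, hq1, hq2, ⟨a', ha'⟩, ⟨b', hb'⟩⟩ := H1 (fun j => α j * (m : ℝ) ^ j) X' (N / m + 1)
    (b - N / m) u3 hX'1 (by
      have h3 : N / m + 1 + (b - N / m) = b + 1 := by omega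
      rw [h3]; exact hbX) hu31 (by
      rw [← hsumeq]
      have h3 : (X : ℝ) ≤ u3 * ‖∑ l ∈ Ioc (N / m) b, E (m * l)‖ := by
        rw [div_lt_iff₀ hu30] at hlarge
        linarith
      have h4 : (X' : ℝ) ≤ X := by rw [hX']; exact_mod_cast Nat.div_le_self X m
      exact h4.trans h3)
  -- the final bounds
  obtain ⟨B, hB⟩ : ∃ B : ℝ, B = C1 * u3 ^ m1 * (2 * m) ^ k := ⟨_, rfl⟩
  have hBT : B ≤ T := by
    refine le_trans ?_ hT3
    have h3 : u3 ≤ CU * u ^ (4 + 16 * m2) := by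
      rw [hu3, hCU]
      push_cast
      rw [pow_add]
      calc 361 * (C0 : ℝ) ^ 2 * u ^ 4 * U ^ 2 ≤ 361 * (C0 : ℝ) ^ 2 * u ^ 4 *
            (G ^ 2 * u ^ (16 * m2)) := by gcongr
        _ = _ := by ring
    have h4 : 2 * (m : ℝ) ≤ 2 * G ^ 2 * u ^ (16 * m2) := by
      have h5 : (m : ℝ) ≤ U ^ 2 := by
        have : ((m : ℕ) : ℝ) ≤ ((U * U : ℕ) : ℝ) := by exact_mod_cast hm.2
        push_cast at this
        rw [sq]; exact this
      linarith [h5.trans hUsq]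
    calc B ≤ C1 * (CU * u ^ (4 + 16 * m2)) ^ m1 * (2 * G ^ 2 * u ^ (16 * m2)) ^ k := by
          rw [hB]; gcongr
      _ = CB * u ^ mB := by
          rw [hCB, hmB]
          push_cast
          rw [mul_pow, mul_pow (2 * (G : ℝ) ^ 2), ← pow_mul, ← pow_mul, pow_add]
          ring
  have hm1k : (1 : ℝ) ≤ (m : ℝ) ^ k := one_le_pow₀ hm1'
  have hu3m : 0 ≤ (C1 : ℝ) * u3 ^ m1 := by positivity
  refine ⟨q * m ^ k, Nat.one_le_iff_ne_zero.2 (by positivity), ?_, ⟨a', ?_⟩, ⟨m * b', ?_⟩⟩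
  · refine le_trans ?_ hBT
    push_cast
    rw [hB, mul_pow]
    have h3 : (1 : ℝ) ≤ 2 ^ k := one_le_pow₀ (by norm_num)
    calc (q : ℝ) * m ^ k ≤ C1 * u3 ^ m1 * m ^ k := by gcongr
      _ ≤ C1 * u3 ^ m1 * (2 ^ k * m ^ k) := by
          apply mul_le_mul_of_nonneg_left _ hu3m
          exact le_mul_of_one_le_left (by positivity) h3
  · push_cast
    have e1 : (q : ℝ) * m ^ k * α k - a' = q * (α k * m ^ k) - a' := by ring
    rw [e1]
    refine ha'.trans ?_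
    have h3 : (C1 : ℝ) * u3 ^ m1 / (X' : ℝ) ^ k ≤ B / (X : ℝ) ^ k := by
      rw [div_le_div_iff₀ (by positivity) (by positivity), hB, mul_assoc (C1 * u3 ^ m1 : ℝ),
        ← mul_pow]
      exact mul_le_mul_of_nonneg_left (pow_le_pow_left₀ hXpos.le hXX'r k) hu3m
    exact h3.trans (div_le_div_of_nonneg_right hBT (by positivity))
  · push_cast
    obtain ⟨k', rfl⟩ : ∃ k', k = k' + 1 := ⟨k - 1, by omega⟩
    simp only [Nat.add_sub_cancel] at hb' ⊢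
    have e1 : (q : ℝ) * m ^ (k' + 1) * α k' - m * b' = m * (q * (α k' * m ^ k') - b') := by ring
    rw [e1, abs_mul, abs_of_pos hm0']
    have h3 : (m : ℝ) * |q * (α k' * m ^ k') - b'| ≤ m * (C1 * u3 ^ m1 / (X' : ℝ) ^ k') :=
      mul_le_mul_of_nonneg_left hb' hm0'.le
    refine h3.trans ?_
    have h4 : (m : ℝ) * (C1 * u3 ^ m1 / (X' : ℝ) ^ k') ≤ B / (X : ℝ) ^ k' := by
      rw [mul_div_assoc', div_le_div_iff₀ (by positivity) (by positivity), hB, pow_succ]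
      have h5 : (X : ℝ) ^ k' ≤ (2 * m * X') ^ k' := pow_le_pow_left₀ hXpos.le hXX'r k'
      calc (m : ℝ) * (C1 * u3 ^ m1) * X ^ k' ≤ m * (C1 * u3 ^ m1) * (2 * m * X') ^ k' := by gcongr
        _ ≤ 2 * (m * (C1 * u3 ^ m1) * (2 * m * X') ^ k') := by
            have : 0 ≤ m * (C1 * u3 ^ m1) * (2 * m * (X' : ℝ)) ^ k' := by positivity
            linarith
        _ = _ := by rw [mul_pow (2 * (m : ℝ))]; ring
    exact h4.trans (div_le_div_of_nonneg_right hBT (by positivity))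

end Pool.Agent.N953.PW
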