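import Pool.Agent.N661.BH.Stm3

/-!
# Project FM, part LV: the one-point laws converge (helper953)
-/

set_option autoImplicit false
open MeasureTheory Filter Topology Complex ProbabilityTheory
open scoped ContDiff

namespace Pool.Agent.N953.FMLV

open Pool.Agent.W745.RW (lap dx dy TF W)
open Pool.Agent.N661.BR (MW lin meas_eval)
open Pool.Agent.N661.BH
open Pool.Agent.N814.BHASM
open Pool.Agent.N814.BHM

noncomputable section

variable {Ω : Set ℂ} {lam : ℕ → ℝ} {u : ℕ → ℂ → ℝ}

lemma u_meas (H : Hyp Ω lam u) (n : ℕ) : AEMeasurable (u n) (Pz Ω) := by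
  have h1 : Pz Ω ≪ volume.restrict Ω :=
    (Measure.smul_absolutelyContinuous).trans (withDensity_absolutelyContinuous _ _)
  have h2 : ContinuousOn (u n) Ω := ((H.sm n).mono H.sub).continuousOn
  exact (h2.aemeasurable H.op.measurableSet).mono_ac h1

/-- the mean over the frames of a function of the value at the point `0` -/
lemma frames_zero (lam : ℝ) (u : ℂ → ℝ) (z : ℂ) (τ : ℝ) :
    frames (fun v : Fin 1 → ℂ => Complex.exp (I *
      ((∑ j, (fun _ : Fin 1 => τ) j * loc lam u z (v j) : ℝ) : ℂ))) (fun _ => 0) =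
      Complex.exp (I * ((τ * u z : ℝ) : ℂ)) := by
  unfold frames
  have e1 : ∀ θ : ℝ, (Complex.exp (I * ((∑ j : Fin 1, (fun _ : Fin 1 => τ) j *
        loc lam u z ((fun _ : Fin 1 => Complex.exp (θ * I) * 0) j) : ℝ) : ℂ)) +
      Complex.exp (I * ((∑ j : Fin 1, (fun _ : Fin 1 => τ) j *
        loc lam u z ((fun _ : Fin 1 => Complex.exp (θ * I) * starRingEnd ℂ 0) j) : ℝ) : ℂ))) =
      2 * Complex.exp (I * ((τ * u z : ℝ) : ℂ)) := by
    intro θ
    have e2 : loc lam u z 0 = u z := by
      unfold loc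
      rw [mul_zero, add_zero]
    simp only [map_zero, mul_zero, Fin.sum_univ_one, e2]
    ring
  simp only [map_zero] at e1 ⊢
  simp only [e1]
  rw [intervalIntegral.integral_const]
  have hpi : (Real.pi : ℂ) ≠ 0 := by exact_mod_cast Real.pi_ne_zero
  rw [Complex.real_smul]
  push_cast
  field_simp
  ring

lemma area_one : area Ω (fun _ => 1) = ((mass Ω : ℝ) : ℂ) := by
  unfold area mass
  simp only [mul_one]
  exact integral_ofReal

lemma area_eq (h : 0 < mass Ω) (g : ℂ → ℂ) :
    area Ω g / area Ω (fun _ => 1) = ∫ z, g z ∂(Pz Ω) := by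
  rw [area_one, int_Pz h]
  unfold area
  rw [Complex.real_smul, Complex.ofReal_inv, div_eq_inv_mul]
  rfl

theorem LV : S_LV := by
  intro Ω lam u H μ hμ hL g hg hgb
  have := probz H
  have := hμ
  have hmp := mpos H
  obtain ⟨C, hC⟩ := hgb
  have hev : Measurable (fun f : MW => f 0) := meas_eval 0
  let Pn : ℕ → ProbabilityMeasure ℝ := fun n =>
    ⟨(Pz Ω).map (u n), Measure.isProbabilityMeasure_map (u_meas H n)⟩
  let Q : ProbabilityMeasure ℝ := ⟨μ.map (fun f : MW => f 0),
    Measure.isProbabilityMeasure_map hev.aemeasurable⟩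
  have hlim : Tendsto Pn atTop (𝓝 Q) := by
    refine ProbabilityMeasure.tendsto_iff_tendsto_charFun.2 fun τ => ?_
    have h1 := hL 1 (fun _ => 0) (fun _ => τ)
    have e1 : ∀ n, (area Ω fun z => frames (fun v : Fin 1 → ℂ => Complex.exp (I *
        ((∑ j, (fun _ : Fin 1 => τ) j * loc (lam n) (u n) z (v j) : ℝ) : ℂ))) (fun _ => 0)) /
        area Ω (fun _ => 1) = charFun ((Pn n : ProbabilityMeasure ℝ) : Measure ℝ) τ := by
      intro n
      rw [area_eq hmp]
      have e2 : charFun ((Pn n : ProbabilityMeasure ℝ) : Measure ℝ) τ =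
          charFun ((Pz Ω).map (u n)) τ := rfl
      rw [e2, charFun_apply_real, integral_map (u_meas H n)
        (by fun_prop)]
      refine integral_congr_ae (Eventually.of_forall fun z => ?_)
      show frames _ _ = _
      rw [frames_zero]
      congr 1
      push_cast
      ring
    have e3 : ∫ f : MW, Complex.exp (I * (lin (fun _ : Fin 1 => 0) (fun _ : Fin 1 => τ) f : ℝ)) ∂μ =
        charFun ((Q : ProbabilityMeasure ℝ) : Measure ℝ) τ := by
      have e2 : charFun ((Q : ProbabilityMeasure ℝ) : Measure ℝ) τ =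
          charFun (μ.map (fun f : MW => f 0)) τ := rfl
      rw [e2, charFun_apply_real, integral_map hev.aemeasurable (by fun_prop)]
      refine integral_congr_ae (Eventually.of_forall fun f => ?_)
      show Complex.exp (I * ((lin (fun _ : Fin 1 => 0) (fun _ : Fin 1 => τ) f : ℝ) : ℂ)) = _
      unfold lin
      rw [Fin.sum_univ_one]
      congr 1
      push_cast
      ring
    rw [e3] at h1
    exact h1.congr e1
  have hw := (ProbabilityMeasure.tendsto_iff_forall_integral_tendsto.1 hlim)
    (BoundedContinuousFunction.ofNormedAddCommGroup g hg C fun x => by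
      rw [Real.norm_eq_abs]; exact hC x)
  have e4 : ∀ n, ∫ x, (BoundedContinuousFunction.ofNormedAddCommGroup g hg C fun x => by
      rw [Real.norm_eq_abs]; exact hC x) x ∂((Pn n : ProbabilityMeasure ℝ) : Measure ℝ) =
      (∫ z in Ω, g (u n z) / z.im ^ 2) / ∫ z in Ω, 1 / z.im ^ 2 := by
    intro n
    show ∫ x, g x ∂((Pz Ω).map (u n)) = _
    rw [integral_map (u_meas H n) hg.aestronglyMeasurable, int_Pz hmp, smul_eq_mul,
      div_eq_inv_mul]
    unfold mass
    congr 2
    funext z
    rw [smul_eq_mul]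
    ring
  have e5 : ∫ x, (BoundedContinuousFunction.ofNormedAddCommGroup g hg C fun x => by
      rw [Real.norm_eq_abs]; exact hC x) x ∂((Q : ProbabilityMeasure ℝ) : Measure ℝ) =
      ∫ f : MW, g (f 0) ∂μ := by
    show ∫ x, g x ∂(μ.map (fun f : MW => f 0)) = _
    rw [integral_map hev.aemeasurable hg.aestronglyMeasurable]
  rw [e5] at hw
  exact hw.congr e4

end

end Pool.Agent.N953.FMLV
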