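import Pool.Agent.N661.BR.Stm2
import Pool.Agent.N738.BHABS

/-!
# Project BR, part MASS: the second moment of the limit is at most one (helper953)

Adapted from BR/LEVY (helper901) and BH/ABS (helper738).
-/

set_option autoImplicit false
open MeasureTheory Filter Topology Complex ProbabilityTheory
open scoped ContDiff

namespace Pool.Agent.N953.BRMASS

open Pool.Agent.N661.BR
open Pool.Agent.W745.RW (lap dx dy TF Dp Dm W Sol Sys)
open Pool.Agent.Y265.RW (sy rr)
open Pool.Agent.N901.BRLEVY (vec coef inner_vec cont_vec co co_vec cont_co cut_vol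
  TF.integrable TF.zero_off)

noncomputable section

/-- removal of the truncation -/
lemma untrunc {μ : Measure MW} [IsProbabilityMeasure μ]
    (key : ∀ T : ℝ, 0 ≤ T → ∫ f : MW, min (f 0 ^ 2) T ∂μ ≤ 1) :
    ∫⁻ f : MW, ENNReal.ofReal (f 0 ^ 2) ∂μ ≤ 1 := by
  have hmeas : Measurable fun f : MW => f 0 ^ 2 := (meas_eval 0).pow_const 2
  have hlim := lintegral_tendsto_of_tendsto_of_monotone (μ := μ)
    (f := fun (n : ℕ) (f : MW) => ENNReal.ofReal (min (f 0 ^ 2) (n : ℝ)))
    (F := fun f : MW => ENNReal.ofReal (f 0 ^ 2))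
    (fun n => (hmeas.min measurable_const).ennreal_ofReal.aemeasurable)
    (Eventually.of_forall fun f => fun m n hmn =>
      ENNReal.ofReal_le_ofReal (min_le_min le_rfl (by exact_mod_cast hmn)))
    (Eventually.of_forall fun f => by
      refine tendsto_const_nhds.congr' ?_
      obtain ⟨N, hN⟩ := exists_nat_ge (f 0 ^ 2)
      filter_upwards [eventually_ge_atTop N] with n hn
      rw [min_eq_left (hN.trans (by exact_mod_cast hn))])
  refine le_of_tendsto' hlim fun n => ?_
  rw [← ofReal_integral_eq_lintegral_ofReal]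
  · exact (ENNReal.ofReal_le_ofReal (key n (Nat.cast_nonneg n))).trans_eq ENNReal.ofReal_one
  · refine Integrable.of_bound (hmeas.min measurable_const).aestronglyMeasurable (n : ℝ)
      (Eventually.of_forall fun f => ?_)
    rw [Real.norm_eq_abs, abs_of_nonneg (le_min (by positivity) (Nat.cast_nonneg n))]
    exact min_le_right _ _
  · exact Eventually.of_forall fun f => le_min (by positivity) (Nat.cast_nonneg n)

/-- the truncated square as a bounded continuous function -/
def gT (T : ℝ) (hT : 0 ≤ T) : BoundedContinuousFunction (EuclideanSpace ℝ (Fin 1 ⊕ Fin 1)) ℝ :=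
  BoundedContinuousFunction.ofNormedAddCommGroup (fun x => min (‖co x 0‖ ^ 2) T)
    (by have := cont_co (k := 1) 0; fun_prop) T
    (fun x => by
      rw [Real.norm_eq_abs, abs_of_nonneg (le_min (by positivity) hT)]
      exact min_le_right _ _)

lemma gT_vec (T : ℝ) (hT : 0 ≤ T) (x : Fin 1 → ℂ) : gT T hT (vec x) = min (‖x 0‖ ^ 2) T := by
  change min (‖co (vec x) 0‖ ^ 2) T = _
  rw [co_vec]

lemma norm_W (r : ℝ) (u : ℂ → ℝ) (z : ℂ) : ‖W r u 0 z‖ ^ 2 = u z ^ 2 := by
  rw [W_zero, Complex.norm_real, Real.norm_eq_abs, sq_abs]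

theorem MASS : S_MASS := by
  intro Ω hΩ hb hne h u hS μ hμ hA
  have h0 : volume Ω ≠ 0 := (hΩ.measure_pos volume hne).ne'
  have hV : volume Ω ≠ ⊤ := hb.measure_lt_top.ne
  have hVpos : 0 < volume.real Ω := ENNReal.toReal_pos h0 hV
  refine untrunc fun T hT => ?_
  have hlim := Pool.Agent.N901.BRLEVY.law_conv hΩ h0 hV hS.sol (fun _ : Fin 1 => (0 : ℤ))
    (fun c => hA _ c _ (fun _ => 0)) (gT T hT)
  simp only [gT_vec, norm_W] at hlim
  refine le_of_forall_pos_le_add fun ε hε => ?_
  set δ : ℝ := ε / (T + 1) with hδ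
  have hδpos : 0 < δ := by positivity
  obtain ⟨φ, hφ, hφ1, hφ2⟩ := cut_vol hΩ hV (ε := δ * volume.real Ω) (by positivity)
  have hm := Pool.Agent.N901.BRLEVY.mass_le hV hφ (fun z => (hφ1 z).2)
  have hr : 1 - (∫ z, φ z) / volume.real Ω ≤ δ := by
    rw [sub_le_iff_le_add, ← sub_le_iff_le_add', le_div_iff₀ hVpos]
    linarith
  have hr0 : 0 ≤ 1 - (∫ z, φ z) / volume.real Ω := by
    rw [sub_nonneg, div_le_one hVpos]
    exact hm
  have hq : Tendsto (fun n => ∫ z, φ z * u n z ^ 2) atTop (𝓝 (∫ z, φ z)) := by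
    have h1 := hS.qe φ hφ 0
    rw [if_pos rfl] at h1
    have h2 := (Complex.continuous_re.tendsto _).comp h1
    rw [Complex.ofReal_re] at h2
    refine h2.congr fun n => ?_
    have h3 : (fun z => (φ z : ℂ) * ((u n z : ℂ) * W (h n) (u n) ((0 : ℕ) : ℤ) z)) =
        fun z => ((φ z * u n z ^ 2 : ℝ) : ℂ) := by
      funext z
      have : W (h n) (u n) ((0 : ℕ) : ℤ) z = (u n z : ℂ) := rfl
      rw [this]
      push_cast
      ring
    simp only [Function.comp]
    rw [h3, integral_complex_ofReal, Complex.ofReal_re]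
  have hfin : IsFiniteMeasure (volume.restrict Ω) := ⟨by
    rw [Measure.restrict_apply_univ]; exact lt_top_iff_ne_top.2 hV⟩
  have hφi : Integrable φ (volume.restrict Ω) := (TF.integrable hφ).restrict
  have hb2 : ∀ n, 1 / volume.real Ω * ∫ z in Ω, min (u n z ^ 2) T ≤
      1 / volume.real Ω * (∫ z, φ z * u n z ^ 2) +
        T * (1 - (∫ z, φ z) / volume.real Ω) := by
    intro n
    have hc : Continuous (fun z => φ z * u n z ^ 2) := by
      refine continuous_of_tsupport fun z hz => ?_
      have hz1 : z ∈ tsupport φ := tsupport_mul_subset_left hz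
      have hz2 : z ∈ Ω := hφ.2.2 hz1
      exact hφ.1.continuous.continuousAt.mul
        ((((hS.sol n).smooth.continuousOn).continuousAt (hΩ.mem_nhds hz2)).pow 2)
    have hcs : HasCompactSupport (fun z => φ z * u n z ^ 2) := hφ.2.1.mul_right
    have hi : Integrable (fun z => φ z * u n z ^ 2) := hc.integrable_of_hasCompactSupport hcs
    have e1 : ∫ z, φ z * u n z ^ 2 = ∫ z in Ω, φ z * u n z ^ 2 :=
      (setIntegral_eq_integral_of_forall_compl_eq_zero fun z hz => by
        rw [TF.zero_off hφ hz]; simp).symm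
    have e2 : T * (1 - (∫ z, φ z) / volume.real Ω) =
        1 / volume.real Ω * ∫ z in Ω, (1 - φ z) * T := by
      rw [integral_mul_const, integral_sub (integrable_const _) hφi,
        setIntegral_eq_integral_of_forall_compl_eq_zero fun z hz => TF.zero_off hφ hz]
      simp only [integral_const, smul_eq_mul, mul_one, measureReal_restrict_apply_univ]
      field_simp
    have hi2 : Integrable (fun z => (1 - φ z) * T) (volume.restrict Ω) :=
      ((integrable_const _).sub hφi).mul_const _
    rw [e1, e2, ← mul_add, ← integral_add hi.restrict hi2]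
    refine mul_le_mul_of_nonneg_left ?_ (by positivity)
    refine integral_mono_of_nonneg (Eventually.of_forall fun z => ?_)
      (hi.restrict.add hi2) (Eventually.of_forall fun z => ?_)
    · exact le_min (by positivity) hT
    · have h1 := (hφ1 z).1
      have h2 := (hφ1 z).2
      have h3 := min_le_left (u n z ^ 2) T
      have h4 := min_le_right (u n z ^ 2) T
      simp only
      nlinarith
  have hlim2 : Tendsto (fun n => 1 / volume.real Ω * (∫ z, φ z * u n z ^ 2) +
        T * (1 - (∫ z, φ z) / volume.real Ω)) atTop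
      (𝓝 (1 / volume.real Ω * (∫ z, φ z) + T * (1 - (∫ z, φ z) / volume.real Ω))) :=
    (hq.const_mul _).add_const _
  have hfinal := le_of_tendsto_of_tendsto' hlim hlim2 hb2
  have e5 : (fun f : MW => min (W 1 f 0 0 |> fun x => ‖x‖ ^ 2) T) =
      fun f : MW => min (f 0 ^ 2) T := by
    funext f
    simp only [norm_W]
  refine hfinal.trans ?_
  have e3 : 1 / volume.real Ω * (∫ z, φ z) = 1 - (1 - (∫ z, φ z) / volume.real Ω) := by
    field_simp
    ring
  rw [e3]
  have h6 : T * (1 - (∫ z, φ z) / volume.real Ω) ≤ T * δ := mul_le_mul_of_nonneg_left hr hT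
  have h7 : T * δ ≤ ε := by
    rw [hδ, mul_div_assoc', div_le_iff₀ (by positivity)]
    nlinarith
  linarith

theorem MASSH : S_MASSH := by
  intro Z _ P X φ μ d
  have := d.prob
  have := d.prob'
  refine untrunc fun T hT => ?_
  have hlim := Pool.Agent.N738.BHABS.law_conv d (fun _ : Fin 1 => (0 : ℤ)) (gT T hT)
  simp only [gT_vec, norm_W] at hlim
  refine le_of_forall_pos_le_add fun ε hε => ?_
  set δ : ℝ := ε / (T + 1) with hδ
  have hδpos : 0 < δ := by positivity
  obtain ⟨i, hr⟩ := Pool.Agent.N738.BHABS.cut d hδpos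
  have hm := Pool.Agent.N738.BHABS.mass_le d i
  have hr0 : 0 ≤ 1 - ∫ z, φ i z ∂P := by linarith
  have hφi := Pool.Agent.N738.BHABS.phi_int d i
  have hq : Tendsto (fun n => ∫ z, φ i z * ‖X n 0 0 z‖ ^ 2 ∂P) atTop (𝓝 (∫ z, φ i z ∂P)) := by
    have h1 := d.iso i 1 (fun _ => 1) (fun _ => 0) (fun _ => 0)
    have h2 : (1 / (2 * Real.pi) * ∫ α in (0:ℝ)..(2 * Real.pi),
        ‖∑ _j : Fin 1, (1 : ℂ) * (sy α ^ (0 : ℤ) * Complex.exp ((rr 0 α : ℂ) * I))‖ ^ 2) = 1 := by
      have h3 : ∀ α : ℝ,
          ‖∑ _j : Fin 1, (1 : ℂ) * (sy α ^ (0 : ℤ) * Complex.exp ((rr 0 α : ℂ) * I))‖ ^ 2 = 1 := by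
        intro α
        rw [Finset.sum_const, Finset.card_univ, Fintype.card_fin, one_smul, one_mul, zpow_zero,
          one_mul, Complex.norm_exp_ofReal_mul_I]
        norm_num
      simp_rw [h3]
      rw [intervalIntegral.integral_const, sub_zero, smul_eq_mul, mul_one]
      have := Real.pi_pos
      field_simp
    rw [h2, one_mul] at h1
    refine h1.congr fun n => ?_
    refine integral_congr_ae (Eventually.of_forall fun z => ?_)
    simp
  have hb2 : ∀ᶠ n in atTop, ∫ z, min (‖X n 0 0 z‖ ^ 2) T ∂P ≤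
      (∫ z, φ i z * ‖X n 0 0 z‖ ^ 2 ∂P) + T * (1 - ∫ z, φ i z ∂P) := by
    filter_upwards [d.isoInt i 0 0] with n hi
    have e2 : T * (1 - ∫ z, φ i z ∂P) = ∫ z, (1 - φ i z) * T ∂P := by
      rw [integral_mul_const, integral_sub (integrable_const _) hφi]
      simp only [integral_const, smul_eq_mul, mul_one]
      rw [probReal_univ]
      ring
    have hi2 : Integrable (fun z => (1 - φ i z) * T) P :=
      ((integrable_const _).sub hφi).mul_const _
    rw [e2, ← integral_add hi hi2]
    refine integral_mono_of_nonneg (Eventually.of_forall fun z => ?_)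
      (hi.add hi2) (Eventually.of_forall fun z => ?_)
    · exact le_min (by positivity) hT
    · have h1 := (d.w01 i z).1
      have h2 := (d.w01 i z).2
      have h3 := min_le_left (‖X n 0 0 z‖ ^ 2) T
      have h4 := min_le_right (‖X n 0 0 z‖ ^ 2) T
      simp only
      nlinarith
  have hlim2 : Tendsto (fun n => (∫ z, φ i z * ‖X n 0 0 z‖ ^ 2 ∂P) +
      T * (1 - ∫ z, φ i z ∂P)) atTop (𝓝 ((∫ z, φ i z ∂P) + T * (1 - ∫ z, φ i z ∂P))) :=
    hq.add_const _
  have hfinal := le_of_tendsto_of_tendsto hlim hlim2 hb2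
  refine hfinal.trans ?_
  have h6 : T * (1 - ∫ z, φ i z ∂P) ≤ T * δ := mul_le_mul_of_nonneg_left hr hT
  have h7 : T * δ ≤ ε := by
    rw [hδ, mul_div_assoc', div_le_iff₀ (by positivity)]
    nlinarith
  linarith

end

end Pool.Agent.N953.BRMASS
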