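import Pool.Agent.N661.BR.Stm3
import Pool.Agent.N738.BHABS
import Pool.Agent.N511.BRISO

/-!
# Project BR, part MASSG: second moments of the limit (helper953)

Adapted from BR/LEVY (helper901) and BH/ABS (helper738).
-/

set_option autoImplicit false
open MeasureTheory Filter Topology Complex ProbabilityTheory
open scoped ContDiff

namespace Pool.Agent.N953.BRMASSG

open Pool.Agent.N661.BR
open Pool.Agent.W745.RW (lap dx dy TF Dp Dm W Sol Sys)
open Pool.Agent.Y265.RW (sy rr)
open Pool.Agent.N901.BRLEVY (cut_vol TF.integrable TF.zero_off PP PP_prob integral_PP W_contOn)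

noncomputable section

section abs

variable {Z : Type*} [MeasurableSpace Z] {P : Measure Z} [IsProbabilityMeasure P]
  {μ : Measure MW} [IsProbabilityMeasure μ]

/-- the truncated square as a bounded continuous function -/
def gT (T : ℝ) (hT : 0 ≤ T) : BoundedContinuousFunction ℂ ℝ :=
  BoundedContinuousFunction.ofNormedAddCommGroup (fun x => min (‖x‖ ^ 2) T) (by fun_prop) T
    (fun x => by
      rw [Real.norm_eq_abs, abs_of_nonneg (le_min (by positivity) hT)]
      exact min_le_right _ _)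

lemma norm_exp_I (x : ℝ) : ‖Complex.exp (I * (x : ℂ))‖ = 1 := by
  rw [mul_comm]
  exact Complex.norm_exp_ofReal_mul_I _

/-- convergence in law -/
lemma conv (Y : ℕ → Z → ℂ) (hY : ∀ n, AEMeasurable (Y n) P) (U : MW → ℂ) (hU : Measurable U)
    (φ : ℕ → Z → ℝ) (hφm : ∀ i, AEStronglyMeasurable (φ i) P)
    (hφ : ∀ i z, φ i z ∈ Set.Icc (0 : ℝ) 1)
    (hφ1 : Tendsto (fun i => ∫ z, φ i z ∂P) atTop (𝓝 1))
    (hlaw : ∀ (i : ℕ) (t : ℂ) (η : ℝ), 0 < η → ∀ᶠ n in atTop,
      ‖(∫ z, (φ i z : ℂ) * Complex.exp (I * (((t * Y n z).re : ℝ) : ℂ)) ∂P) -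
        ∫ f : MW, Complex.exp (I * (((t * U f).re : ℝ) : ℂ)) ∂μ‖ ≤ 1 - (∫ z, φ i z ∂P) + η)
    (g : BoundedContinuousFunction ℂ ℝ) :
    Tendsto (fun n => ∫ z, g (Y n z) ∂P) atTop (𝓝 (∫ f : MW, g (U f) ∂μ)) := by
  let Pn : ℕ → ProbabilityMeasure ℂ := fun n =>
    ⟨P.map (Y n), Measure.isProbabilityMeasure_map (hY n)⟩
  let P0 : ProbabilityMeasure ℂ := ⟨μ.map U, Measure.isProbabilityMeasure_map hU.aemeasurable⟩
  have hφi : ∀ i, Integrable (φ i) P := fun i =>
    Integrable.of_bound (hφm i) 1 (Eventually.of_forall fun z => by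
      rw [Real.norm_eq_abs, abs_of_nonneg (hφ i z).1]; exact (hφ i z).2)
  have key : Tendsto Pn atTop (𝓝 P0) := by
    refine ProbabilityMeasure.tendsto_of_tendsto_charFun fun t => ?_
    have hin : ∀ x : ℂ, inner ℝ x t = ((starRingEnd ℂ) t * x).re := by
      intro x
      rw [Complex.inner]
      simp only [Complex.mul_re, Complex.conj_re, Complex.conj_im]
      ring
    have e1 : ∀ n, charFun (Pn n : Measure _) t = ∫ z, Complex.exp
          (I * ((((starRingEnd ℂ) t * Y n z).re : ℝ) : ℂ)) ∂P := by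
      intro n
      change charFun (P.map (Y n)) t = _
      rw [charFun_apply, integral_map (hY n) (by fun_prop)]
      refine integral_congr_ae (Eventually.of_forall fun z => ?_)
      simp only
      rw [hin, mul_comm]
    have e2 : charFun (P0 : Measure _) t = ∫ f : MW, Complex.exp
        (I * ((((starRingEnd ℂ) t * U f).re : ℝ) : ℂ)) ∂μ := by
      change charFun (μ.map U) t = _
      rw [charFun_apply, integral_map hU.aemeasurable (by fun_prop)]
      refine integral_congr_ae (Eventually.of_forall fun f => ?_)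
      simp only
      rw [hin, mul_comm]
    rw [e2]
    simp_rw [e1]
    set τ : ℂ := (starRingEnd ℂ) t with hτ
    rw [Metric.tendsto_atTop']
    intro ε hε
    have h1 := hφ1.eventually (lt_mem_nhds (show 1 - ε / 4 < 1 by linarith))
    obtain ⟨i, hi⟩ := h1.exists
    obtain ⟨N, hN⟩ := eventually_atTop.1 (hlaw i τ (ε / 4) (by positivity))
    refine ⟨N, fun n hn => ?_⟩
    have h1' := hN n hn.le
    set E : Z → ℂ := fun z => Complex.exp (I * (((τ * Y n z).re : ℝ) : ℂ)) with hE
    have hE1 : ∀ z, ‖E z‖ = 1 := fun z => norm_exp_I _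
    have hEm : AEStronglyMeasurable E P := by
      have h2 : Continuous fun x : ℂ => Complex.exp (I * (((τ * x).re : ℝ) : ℂ)) := by fun_prop
      exact h2.comp_aestronglyMeasurable (hY n).aestronglyMeasurable
    have hEi : Integrable E P := Integrable.of_bound hEm 1 (Eventually.of_forall fun z => (hE1 z).le)
    have hφE : Integrable (fun z => (φ i z : ℂ) * E z) P := by
      refine Integrable.of_bound ((Complex.continuous_ofReal.comp_aestronglyMeasurable
        (hφm i)).mul hEm) 1 (Eventually.of_forall fun z => ?_)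
      rw [norm_mul, hE1, mul_one, Complex.norm_real, Real.norm_eq_abs, abs_of_nonneg (hφ i z).1]
      exact (hφ i z).2
    have h3 : ‖(∫ z, E z ∂P) - ∫ z, (φ i z : ℂ) * E z ∂P‖ ≤ 1 - ∫ z, φ i z ∂P := by
      rw [← integral_sub hEi hφE]
      have h5 : 1 - ∫ z, φ i z ∂P = ∫ z, (1 - φ i z) ∂P := by
        rw [integral_sub (integrable_const _) (hφi i)]
        simp
      rw [h5]
      refine norm_integral_le_of_norm_le ((integrable_const _).sub (hφi i))
        (Eventually.of_forall fun z => ?_)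
      have : E z - (φ i z : ℂ) * E z = ((1 - φ i z : ℝ) : ℂ) * E z := by push_cast; ring
      rw [this, norm_mul, hE1, mul_one, Complex.norm_real, Real.norm_eq_abs,
        abs_of_nonneg (by linarith [(hφ i z).2])]
    rw [dist_eq_norm]
    have h6 : (∫ z, E z ∂P) - ∫ f : MW, Complex.exp (I * (((τ * U f).re : ℝ) : ℂ)) ∂μ =
        ((∫ z, E z ∂P) - ∫ z, (φ i z : ℂ) * E z ∂P) +
        ((∫ z, (φ i z : ℂ) * E z ∂P) -
          ∫ f : MW, Complex.exp (I * (((τ * U f).re : ℝ) : ℂ)) ∂μ) := by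
      ring
    rw [h6]
    refine lt_of_le_of_lt (norm_add_le _ _) ?_
    linarith
  have h8 := (ProbabilityMeasure.tendsto_iff_forall_integral_tendsto.1 key) g
  have e3 : ∀ n, ∫ x, g x ∂(Pn n : Measure _) = ∫ z, g (Y n z) ∂P := by
    intro n
    change ∫ x, g x ∂(P.map (Y n)) = _
    rw [integral_map (hY n) (by fun_prop)]
  have e4 : ∫ x, g x ∂(P0 : Measure _) = ∫ f : MW, g (U f) ∂μ := by
    change ∫ x, g x ∂(μ.map U) = _
    rw [integral_map hU.aemeasurable (by fun_prop)]
  rw [e4] at h8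
  exact h8.congr e3

/-- the second moment of the limit -/
lemma second (Y : ℕ → Z → ℂ) (hY : ∀ᶠ n in atTop, AEMeasurable (Y n) P) (U : MW → ℂ)
    (hU : Measurable U) (φ : ℕ → Z → ℝ) (hφm : ∀ i, AEStronglyMeasurable (φ i) P)
    (hφ : ∀ i z, φ i z ∈ Set.Icc (0 : ℝ) 1)
    (hφ1 : Tendsto (fun i => ∫ z, φ i z ∂P) atTop (𝓝 1))
    (hlaw : ∀ (i : ℕ) (t : ℂ) (η : ℝ), 0 < η → ∀ᶠ n in atTop,
      ‖(∫ z, (φ i z : ℂ) * Complex.exp (I * (((t * Y n z).re : ℝ) : ℂ)) ∂P) -
        ∫ f : MW, Complex.exp (I * (((t * U f).re : ℝ) : ℂ)) ∂μ‖ ≤ 1 - (∫ z, φ i z ∂P) + η)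
    (K : ℝ) (hK : 0 ≤ K)
    (hint : ∀ i, ∀ᶠ n in atTop, Integrable (fun z => φ i z * ‖Y n z‖ ^ 2) P)
    (hsm : ∀ i, Tendsto (fun n => ∫ z, φ i z * ‖Y n z‖ ^ 2 ∂P) atTop
      (𝓝 (K * ∫ z, φ i z ∂P))) :
    ∫⁻ f : MW, ENNReal.ofReal (‖U f‖ ^ 2) ∂μ ≤ ENNReal.ofReal K := by
  classical
  have hφi : ∀ i, Integrable (φ i) P := fun i =>
    Integrable.of_bound (hφm i) 1 (Eventually.of_forall fun z => by
      rw [Real.norm_eq_abs, abs_of_nonneg (hφ i z).1]; exact (hφ i z).2)
  have hmass : ∀ i, ∫ z, φ i z ∂P ≤ 1 := by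
    intro i
    have h1 : ∫ z, φ i z ∂P ≤ ∫ z, (1 : ℝ) ∂P :=
      integral_mono (hφi i) (integrable_const _) fun z => (hφ i z).2
    simpa using h1
  -- replace `Y` by measurable functions
  set Y' : ℕ → Z → ℂ := fun n => if AEMeasurable (Y n) P then Y n else fun _ => 0 with hY'
  have hYm' : ∀ n, AEMeasurable (Y' n) P := by
    intro n
    simp only [hY']
    split_ifs with h
    · exact h
    · exact aemeasurable_const
  have hYY : ∀ᶠ n in atTop, Y' n = Y n := by
    filter_upwards [hY] with n hn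
    simp only [hY']
    rw [if_pos hn]
  have hconv := fun g => conv (μ := μ) Y' hYm' U hU φ hφm hφ hφ1 (fun i t η hη => by
    filter_upwards [hlaw i t η hη, hYY] with n hn hn'
    rw [hn']
    exact hn) g
  have key : ∀ T : ℝ, 0 ≤ T → ∫ f : MW, min (‖U f‖ ^ 2) T ∂μ ≤ K := by
    intro T hT
    have hlim := hconv (gT T hT)
    refine le_of_forall_pos_le_add fun ε hε => ?_
    set δ : ℝ := ε / (T + 1) with hδ
    have hδpos : 0 < δ := by positivity
    have h1 := hφ1.eventually (lt_mem_nhds (show 1 - δ < 1 by linarith))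
    obtain ⟨i, hi⟩ := h1.exists
    have hm := hmass i
    have hr0 : 0 ≤ 1 - ∫ z, φ i z ∂P := by linarith
    have hb2 : ∀ᶠ n in atTop, ∫ z, gT T hT (Y' n z) ∂P ≤
        (∫ z, φ i z * ‖Y n z‖ ^ 2 ∂P) + T * (1 - ∫ z, φ i z ∂P) := by
      filter_upwards [hint i, hYY] with n hi' hn
      rw [hn]
      have e2 : T * (1 - ∫ z, φ i z ∂P) = ∫ z, (1 - φ i z) * T ∂P := by
        rw [integral_mul_const, integral_sub (integrable_const _) (hφi i)]
        simp only [integral_const, smul_eq_mul, mul_one]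
        rw [probReal_univ]
        ring
      have hi2 : Integrable (fun z => (1 - φ i z) * T) P :=
        ((integrable_const _).sub (hφi i)).mul_const _
      rw [e2, ← integral_add hi' hi2]
      refine integral_mono_of_nonneg (Eventually.of_forall fun z => ?_)
        (hi'.add hi2) (Eventually.of_forall fun z => ?_)
      · exact le_min (by positivity) hT
      · have h1 := (hφ i z).1
        have h2 := (hφ i z).2
        have h3 := min_le_left (‖Y n z‖ ^ 2) T
        have h4 := min_le_right (‖Y n z‖ ^ 2) T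
        have h5 : gT T hT (Y n z) = min (‖Y n z‖ ^ 2) T := rfl
        simp only
        rw [h5]
        nlinarith
    have hlim2 : Tendsto (fun n => (∫ z, φ i z * ‖Y n z‖ ^ 2 ∂P) +
        T * (1 - ∫ z, φ i z ∂P)) atTop (𝓝 ((K * ∫ z, φ i z ∂P) + T * (1 - ∫ z, φ i z ∂P))) :=
      (hsm i).add_const _
    have hfinal := le_of_tendsto_of_tendsto hlim hlim2 hb2
    have h5 : ∫ f : MW, gT T hT (U f) ∂μ = ∫ f : MW, min (‖U f‖ ^ 2) T ∂μ := rfl
    rw [h5] at hfinal
    refine hfinal.trans ?_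
    have h6 : T * (1 - ∫ z, φ i z ∂P) ≤ T * δ :=
      mul_le_mul_of_nonneg_left (by linarith) hT
    have h7 : T * δ ≤ ε := by
      rw [hδ, mul_div_assoc', div_le_iff₀ (by positivity)]
      nlinarith
    have h8 : K * ∫ z, φ i z ∂P ≤ K := by nlinarith
    linarith
  -- remove the truncation
  have hmeas : Measurable fun f : MW => ‖U f‖ ^ 2 := hU.norm.pow_const 2
  have hlim := lintegral_tendsto_of_tendsto_of_monotone (μ := μ)
    (f := fun (n : ℕ) (f : MW) => ENNReal.ofReal (min (‖U f‖ ^ 2) (n : ℝ)))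
    (F := fun f : MW => ENNReal.ofReal (‖U f‖ ^ 2))
    (fun n => (hmeas.min measurable_const).ennreal_ofReal.aemeasurable)
    (Eventually.of_forall fun f => fun m n hmn =>
      ENNReal.ofReal_le_ofReal (min_le_min le_rfl (by exact_mod_cast hmn)))
    (Eventually.of_forall fun f => by
      refine tendsto_const_nhds.congr' ?_
      obtain ⟨N, hN⟩ := exists_nat_ge (‖U f‖ ^ 2)
      filter_upwards [eventually_ge_atTop N] with n hn
      rw [min_eq_left (hN.trans (by exact_mod_cast hn))])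
  refine le_of_tendsto' hlim fun n => ?_
  rw [← ofReal_integral_eq_lintegral_ofReal]
  · exact ENNReal.ofReal_le_ofReal (key n (Nat.cast_nonneg n))
  · refine Integrable.of_bound (hmeas.min measurable_const).aestronglyMeasurable (n : ℝ)
      (Eventually.of_forall fun f => ?_)
    rw [Real.norm_eq_abs, abs_of_nonneg (le_min (by positivity) (Nat.cast_nonneg n))]
    exact min_le_right _ _
  · exact Eventually.of_forall fun f => le_min (by positivity) (Nat.cast_nonneg n)

end abs

lemma SM_nonneg {k : ℕ} (c : Fin k → ℂ) (a : Fin k → ℤ) (w : Fin k → ℂ) : 0 ≤ SM c a w := by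
  unfold SM
  have h1 : (0 : ℝ) ≤ 2 * Real.pi := by positivity
  have := intervalIntegral.integral_nonneg (μ := volume) h1 (f := fun α =>
    ‖∑ i, c i * (sy α ^ (a i) * Complex.exp ((rr (w i) α : ℂ) * I))‖ ^ 2)
    (fun α _ => by positivity)
  positivity

lemma meas_comb {k : ℕ} (c : Fin k → ℂ) (a : Fin k → ℤ) (w : Fin k → ℂ) :
    Measurable fun f : MW => ∑ i, c i * W 1 f (a i) (w i) :=
  Finset.measurable_sum _ fun j _ => (meas_W (a j) (w j)).const_mul _

theorem MASSGH : S_MASSGH := by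
  intro Z _ P X φ μ d k c a w
  have := d.prob
  have := d.prob'
  refine second (P := P) (fun n z => ∑ j, c j * X n (a j) (w j) z) ?_ _ (meas_comb c a w) φ
    (fun i => (d.wm i).aestronglyMeasurable) d.w01 d.wlim ?_ _ (SM_nonneg c a w) ?_ ?_
  · exact (Pool.Agent.N738.BHABS.comb_meas d c a w).mono fun n hn => hn.aemeasurable
  · intro i t η hη
    have h1 := Pool.Agent.N738.BHABS.law d k (fun j => t * c j) a w i η hη
    filter_upwards [h1] with n hn
    simp only [Pool.Agent.N511.BRLAW.comb, Pool.Agent.N738.BHABS.EX,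
      Pool.Agent.N511.BRLAW.EL, mul_assoc t] at hn
    simp only [Finset.mul_sum]
    exact hn
  · intro i
    exact Pool.Agent.N738.BHABS.comb_int d i c a w
  · intro i
    exact d.iso i k c a w

lemma good_set {Ω : Set ℂ} (hΩ : IsOpen Ω) {K : Set ℂ} (hK : IsCompact K) (hKΩ : K ⊆ Ω)
    {h : ℕ → ℝ} (hh : Tendsto h atTop (𝓝 0)) {k : ℕ} (w : Fin k → ℂ) :
    ∀ᶠ n in atTop, ∀ z ∈ K, ∀ j, z + (h n : ℂ) * w j ∈ Ω := by
  obtain ⟨δ, hδ, hsub⟩ := hK.exists_cthickening_subset_open hΩ hKΩ
  have h1 : ∀ j, ∀ᶠ n in atTop, ‖(h n : ℂ) * w j‖ ≤ δ := by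
    intro j
    have h2 : Tendsto (fun n => ‖(h n : ℂ) * w j‖) atTop (𝓝 0) := by
      have := (((Complex.continuous_ofReal.tendsto 0).comp hh).mul_const (w j)).norm
      simpa using this
    exact h2.eventually (ge_mem_nhds hδ)
  filter_upwards [eventually_all.2 h1] with n hn z hz j
  refine hsub ?_
  refine Metric.mem_cthickening_of_dist_le _ z _ _ hz ?_
  rw [dist_eq_norm]
  simpa using hn j

theorem MASSG : S_MASSG := by
  intro Ω hΩ hb hne h u hS μ hμ hA k c a w
  have h0 : volume Ω ≠ 0 := (hΩ.measure_pos volume hne).ne'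
  have hV : volume Ω ≠ ⊤ := hb.measure_lt_top.ne
  have hVpos : 0 < volume.real Ω := ENNReal.toReal_pos h0 hV
  have := PP_prob h0 hV
  set G : ℕ → ℂ → ℂ := fun n z => ∑ j, c j * W (h n) (u n) (a j) (z + (h n : ℂ) * w j) with hG
  set S : ℕ → Set ℂ := fun n => {z | z ∈ Ω ∧ ∀ j, z + (h n : ℂ) * w j ∈ Ω} with hSd
  have hSo : ∀ n, IsOpen (S n) := by
    intro n
    have e1 : S n = Ω ∩ ⋂ j, (fun z => z + (h n : ℂ) * w j) ⁻¹' Ω := by
      ext z
      simp [hSd]
    rw [e1]
    exact hΩ.inter (isOpen_iInter_of_finite fun j => hΩ.preimage (by fun_prop))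
  have hGc : ∀ n, ContinuousOn (G n) (S n) := by
    intro n
    refine continuousOn_finsetSum _ fun j _ => continuousOn_const.mul ?_
    exact (W_contOn hΩ (hS.sol n) (a j)).comp (by fun_prop) fun z hz => hz.2 j
  set Y : ℕ → ℂ → ℂ := fun n => (S n).indicator (G n) with hYd
  choose φ hφ hφ1 hφ2 using fun i : ℕ =>
    cut_vol hΩ hV (ε := 1 / ((i : ℝ) + 1) * volume.real Ω) (by positivity)
  have hmul : ∀ i, ∀ᶠ n in atTop, ∀ z, φ i z ≠ 0 → z ∈ S n := by
    intro i
    filter_upwards [good_set hΩ (hφ i).2.1 (hφ i).2.2 hS.hlim w] with n hn z hz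
    have hz1 : z ∈ tsupport (φ i) := subset_tsupport _ hz
    exact ⟨(hφ i).2.2 hz1, hn z hz1⟩
  -- integrals with respect to the normalised area
  have hPP : ∀ (i : ℕ) (F : ℂ → ℂ), ∫ z, (φ i z : ℂ) * F z ∂(PP Ω) =
      ((1 / volume.real Ω : ℝ) : ℂ) * ∫ z, (φ i z : ℂ) * F z := by
    intro i F
    rw [integral_PP, Complex.real_smul,
      setIntegral_eq_integral_of_forall_compl_eq_zero fun z hz => by
        rw [TF.zero_off (hφ i) hz]; simp]
  have hPPr : ∀ (i : ℕ) (F : ℂ → ℝ), ∫ z, φ i z * F z ∂(PP Ω) =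
      (1 / volume.real Ω : ℝ) * ∫ z, φ i z * F z := by
    intro i F
    rw [integral_PP, smul_eq_mul,
      setIntegral_eq_integral_of_forall_compl_eq_zero fun z hz => by
        rw [TF.zero_off (hφ i) hz]; simp]
  have hPP1 : ∀ i : ℕ, ∫ z, φ i z ∂(PP Ω) = (∫ z, φ i z) / volume.real Ω := by
    intro i
    have := hPPr i fun _ => 1
    simp only [mul_one] at this
    rw [this]
    ring
  refine second (P := PP Ω) Y ?_ _ (meas_comb c a w) φ
    (fun i => (hφ i).1.continuous.aestronglyMeasurable) hφ1 ?_ ?_ _ (SM_nonneg c a w) ?_ ?_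
  · refine Eventually.of_forall fun n => ?_
    exact (aemeasurable_indicator_iff (hSo n).measurableSet).2
      ((hGc n).aemeasurable (hSo n).measurableSet)
  · have hlow : ∀ i : ℕ, 1 - 1 / ((i : ℝ) + 1) ≤ ∫ z, φ i z ∂(PP Ω) := by
      intro i
      rw [hPP1, le_div_iff₀ hVpos]
      have := hφ2 i
      linarith
    have hup : ∀ i : ℕ, ∫ z, φ i z ∂(PP Ω) ≤ 1 := by
      intro i
      rw [hPP1, div_le_one hVpos]
      exact Pool.Agent.N901.BRLEVY.mass_le hV (hφ i) fun z => (hφ1 i z).2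
    have hl : Tendsto (fun i : ℕ => 1 - 1 / ((i : ℝ) + 1)) atTop (𝓝 1) := by
      have := (tendsto_one_div_add_atTop_nhds_zero_nat (𝕜 := ℝ)).const_sub 1
      rwa [sub_zero] at this
    exact tendsto_of_tendsto_of_tendsto_of_le_of_le hl tendsto_const_nhds hlow hup
  · intro i t η hη
    filter_upwards [hA k (fun j => t * c j) a w (φ i) (hφ i) (hφ1 i) η hη, hmul i] with n hn hn2
    have e1 : (fun z => (φ i z : ℂ) * Complex.exp (I * (((t * Y n z).re : ℝ) : ℂ))) =
        fun z => (φ i z : ℂ) * Complex.exp (I * (((t * G n z).re : ℝ) : ℂ)) := by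
      funext z
      by_cases hz : φ i z = 0
      · rw [hz]; simp
      · have : Y n z = G n z := Set.indicator_of_mem (hn2 z hz) _
        rw [this]
    rw [e1, hPP i fun z => Complex.exp (I * (((t * G n z).re : ℝ) : ℂ)), hPP1]
    simp only [mul_assoc t] at hn
    simp only [hG, Finset.mul_sum]
    exact hn
  · intro i
    filter_upwards [hmul i, good_set hΩ (hφ i).2.1 (hφ i).2.2 hS.hlim w] with n hn hn2
    have e1 : (fun z => φ i z * ‖Y n z‖ ^ 2) = fun z => φ i z * ‖G n z‖ ^ 2 := by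
      funext z
      by_cases hz : φ i z = 0
      · rw [hz]; simp
      · have : Y n z = G n z := Set.indicator_of_mem (hn z hz) _
        rw [this]
    rw [e1]
    have hc : Continuous (fun z => φ i z * ‖G n z‖ ^ 2) := by
      refine continuous_of_tsupport fun z hz => ?_
      have hz1 : z ∈ tsupport (φ i) := tsupport_mul_subset_left hz
      have hz2 : z ∈ S n := ⟨(hφ i).2.2 hz1, hn2 z hz1⟩
      exact (hφ i).1.continuous.continuousAt.mul
        (((hGc n).continuousAt ((hSo n).mem_nhds hz2)).norm.pow 2)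
    have hcs : HasCompactSupport (fun z => φ i z * ‖G n z‖ ^ 2) := (hφ i).2.1.mul_right
    have hi : Integrable (fun z => φ i z * ‖G n z‖ ^ 2) := hc.integrable_of_hasCompactSupport hcs
    exact hi.restrict.smul_measure (by simp [h0])
  · intro i
    have h1 := Pool.Agent.N511.BRISO.ISO Ω hΩ h u hS (φ i) (hφ i) k c a w
    have h2 : Tendsto (fun n => (1 / volume.real Ω : ℝ) * ∫ z, φ i z * ‖G n z‖ ^ 2) atTop
        (𝓝 ((1 / volume.real Ω : ℝ) * (SM c a w * ∫ z, φ i z))) := h1.const_mul _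
    have h3 : (1 / volume.real Ω : ℝ) * (SM c a w * ∫ z, φ i z) =
        SM c a w * ∫ z, φ i z ∂(PP Ω) := by
      rw [hPP1]
      ring
    rw [h3] at h2
    refine h2.congr' ?_
    filter_upwards [hmul i] with n hn
    have e1 : (fun z => φ i z * ‖Y n z‖ ^ 2) = fun z => φ i z * ‖G n z‖ ^ 2 := by
      funext z
      by_cases hz : φ i z = 0
      · rw [hz]; simp
      · have : Y n z = G n z := Set.indicator_of_mem (hn z hz) _
        rw [this]
    rw [e1, hPPr i fun z => ‖G n z‖ ^ 2]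

end

end Pool.Agent.N953.BRMASSG
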